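import Mathlib

set_option autoImplicit false

namespace Pool.Agent.MP_633541_co

open SimpleGraph

/-- `OP(3, s, s)` has a solution: the edges of the complete graph on `2 * s + 3` vertices can be
partitioned into `s + 1` spanning subgraphs, each isomorphic to the disjoint union of a triangle
and two cycles of length `s`. -/
def HasSolution (s : ℕ) : Prop :=
  ∃ F : Fin (s + 1) → SimpleGraph (Fin (2 * s + 3)),
    (∀ i, Nonempty (F i ≃g (cycleGraph 3 ⊕g (cycleGraph s ⊕g cycleGraph s)))) ∧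
    ∀ u v, u ≠ v → ∃! i, (F i).Adj u v

/-- `u` and `v` are cyclically consecutive among `c 0, ..., c (n - 1)`. -/
def Cons {V : Type} (c : ℕ → V) (n : ℕ) (u v : V) : Prop :=
  ∃ k < n, (c k = u ∧ c ((k + 1) % n) = v) ∨ (c k = v ∧ c ((k + 1) % n) = u)

theorem Cons.symm {V : Type} {c : ℕ → V} {n : ℕ} {u v : V} (h : Cons c n u v) : Cons c n v u := by
  obtain ⟨k, hk, h⟩ := h
  exact ⟨k, hk, h.symm⟩

theorem Cons.of_succ {V : Type} {c : ℕ → V} {n : ℕ} {u v : V} (k : ℕ) (hk : k + 1 < n)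
    (h1 : c k = u) (h2 : c (k + 1) = v) : Cons c n u v :=
  ⟨k, by omega, Or.inl ⟨h1, by rw [Nat.mod_eq_of_lt hk]; exact h2⟩⟩

theorem Cons.of_last {V : Type} {c : ℕ → V} {n : ℕ} {u v : V} (hn : 1 ≤ n)
    (h1 : c (n - 1) = u) (h2 : c 0 = v) : Cons c n u v :=
  ⟨n - 1, by omega, Or.inl ⟨h1, by
    have : n - 1 + 1 = n := by omega
    rw [this, Nat.mod_self]; exact h2⟩⟩

theorem Cons.map {V W : Type} {c : ℕ → V} {n : ℕ} {u v : V} (f : V → W) (h : Cons c n u v) :
    Cons (fun k => f (c k)) n (f u) (f v) := by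
  obtain ⟨k, hk, h⟩ := h
  refine ⟨k, hk, ?_⟩
  rcases h with ⟨h1, h2⟩ | ⟨h1, h2⟩
  · exact Or.inl ⟨congrArg f h1, congrArg f h2⟩
  · exact Or.inr ⟨congrArg f h1, congrArg f h2⟩

/-- all vertices occur in one of the three cycles -/
def Cov {V : Type} (s : ℕ) (T A B : ℕ → V) (v : V) : Prop :=
  (∃ k < 3, T k = v) ∨ (∃ k < s, A k = v) ∨ (∃ k < s, B k = v)

/-- adjacency in the union of the three cycles -/
def Adj3 {V : Type} (s : ℕ) (T A B : ℕ → V) (u v : V) : Prop :=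
  Cons T 3 u v ∨ Cons A s u v ∨ Cons B s u v

theorem Adj3.symm {V : Type} {s : ℕ} {T A B : ℕ → V} {u v : V} (h : Adj3 s T A B u v) :
    Adj3 s T A B v u := by
  rcases h with h | h | h
  · exact Or.inl h.symm
  · exact Or.inr (Or.inl h.symm)
  · exact Or.inr (Or.inr h.symm)

/-- adjacency in the cycle graph -/
theorem cycleGraph_adj_iff (n : ℕ) (hn : 2 ≤ n) (u v : Fin n) :
    (cycleGraph n).Adj u v ↔ (v.val = (u.val + 1) % n ∨ u.val = (v.val + 1) % n) := by
  obtain ⟨m, rfl⟩ : ∃ m, n = m + 2 := ⟨n - 2, by omega⟩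
  rw [cycleGraph_adj, sub_eq_iff_eq_add', sub_eq_iff_eq_add', Fin.ext_iff, Fin.ext_iff,
    Fin.val_add, Fin.val_add]
  simp only [Fin.val_one]
  constructor
  · rintro (h | h)
    · right; exact h
    · left; exact h
  · rintro (h | h)
    · right; exact h
    · left; exact h

/-- the next vertex on the cycle -/
def nx (n : ℕ) (hn : 0 < n) (u : Fin n) : Fin n := ⟨(u.val + 1) % n, Nat.mod_lt _ hn⟩

theorem cycleGraph_adj_nx (n : ℕ) (hn : 2 ≤ n) (u v : Fin n) :
    (cycleGraph n).Adj u v ↔ (v = nx n (by omega) u ∨ u = nx n (by omega) v) := by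
  rw [cycleGraph_adj_iff n hn, Fin.ext_iff, Fin.ext_iff]
  rfl

abbrev Wt (s : ℕ) : Type := Fin 3 ⊕ (Fin s ⊕ Fin s)

/-- the next vertex in the three cycles -/
def nxW (s : ℕ) (hs : 0 < s) : Wt s → Wt s
  | Sum.inl a => Sum.inl (nx 3 (by norm_num) a)
  | Sum.inr (Sum.inl a) => Sum.inr (Sum.inl (nx s hs a))
  | Sum.inr (Sum.inr a) => Sum.inr (Sum.inr (nx s hs a))

theorem cyc_adj (s : ℕ) (hs : 2 ≤ s) (u v : Wt s) :
    (cycleGraph 3 ⊕g (cycleGraph s ⊕g cycleGraph s)).Adj u v ↔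
      (v = nxW s (by omega) u ∨ u = nxW s (by omega) v) := by
  rcases u with a | a | a <;> rcases v with b | b | b
  · rw [SimpleGraph.sum_adj_inl, cycleGraph_adj_nx 3 (by norm_num)]
    simp [nxW]
  · simp [nxW]
  · simp [nxW]
  · simp [nxW]
  · rw [SimpleGraph.sum_adj_inr, SimpleGraph.sum_adj_inl, cycleGraph_adj_nx s hs]
    simp [nxW]
  · simp [nxW]
  · simp [nxW]
  · simp [nxW]
  · rw [SimpleGraph.sum_adj_inr, SimpleGraph.sum_adj_inr, cycleGraph_adj_nx s hs]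
    simp [nxW]

/-- the labelling of the three cycles -/
def lab {V : Type} (s : ℕ) (T A B : ℕ → V) : Wt s → V
  | Sum.inl a => T a.val
  | Sum.inr (Sum.inl a) => A a.val
  | Sum.inr (Sum.inr a) => B a.val

/-- A solution from three sequences for each index. -/
theorem hasSolution_of_family (s : ℕ) (hs : 2 ≤ s) (V I : Type) [Fintype V] [Fintype I]
    (hV : Fintype.card V = 2 * s + 3) (hI : Fintype.card I = s + 1)
    (T A B : I → ℕ → V)
    (hcov : ∀ i v, Cov s (T i) (A i) (B i) v)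
    (hedge : ∀ u v, u ≠ v → ∃ i, Adj3 s (T i) (A i) (B i) u v) : HasSolution s := by
  classical
  have hs0 : 0 < s := by omega
  have hsurj : ∀ i, Function.Surjective (lab s (T i) (A i) (B i)) := by
    intro i v
    rcases hcov i v with ⟨k, hk, h⟩ | ⟨k, hk, h⟩ | ⟨k, hk, h⟩
    · exact ⟨Sum.inl ⟨k, hk⟩, h⟩
    · exact ⟨Sum.inr (Sum.inl ⟨k, hk⟩), h⟩
    · exact ⟨Sum.inr (Sum.inr ⟨k, hk⟩), h⟩
  have hcardW : Fintype.card (Wt s) = 2 * s + 3 := by
    simp [Wt]; ring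
  have hbij : ∀ i, Function.Bijective (lab s (T i) (A i) (B i)) := fun i =>
    (Fintype.bijective_iff_surjective_and_card _).2 ⟨hsurj i, by rw [hcardW, hV]⟩
  let φ : ∀ i, Wt s ≃ V := fun i => Equiv.ofBijective _ (hbij i)
  let C : SimpleGraph (Wt s) := cycleGraph 3 ⊕g (cycleGraph s ⊕g cycleGraph s)
  let G : I → SimpleGraph V := fun i => C.map (φ i).toEmbedding
  -- adjacency
  have hG : ∀ i u v, (G i).Adj u v → ∃ w, (φ i w = u ∧ φ i (nxW s hs0 w) = v) ∨
      (φ i w = v ∧ φ i (nxW s hs0 w) = u) := by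
    intro i u v h
    obtain ⟨a, b, hab, rfl, rfl⟩ := (SimpleGraph.map_adj _ _ _ _).1 h
    rcases (cyc_adj s hs a b).1 hab with rfl | rfl
    · exact ⟨a, Or.inl ⟨rfl, rfl⟩⟩
    · exact ⟨b, Or.inr ⟨rfl, rfl⟩⟩
  have hG' : ∀ i w, (G i).Adj (φ i w) (φ i (nxW s hs0 w)) := by
    intro i w
    refine (SimpleGraph.map_adj _ _ _ _).2 ⟨w, nxW s hs0 w, ?_, rfl, rfl⟩
    exact (cyc_adj s hs _ _).2 (Or.inl rfl)
  -- consecutive elements come from the labelling
  have hcons : ∀ i u v, Adj3 s (T i) (A i) (B i) u v → ∃ w, (φ i w = u ∧ φ i (nxW s hs0 w) = v) ∨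
      (φ i w = v ∧ φ i (nxW s hs0 w) = u) := by
    intro i u v h
    rcases h with ⟨k, hk, h⟩ | ⟨k, hk, h⟩ | ⟨k, hk, h⟩
    · exact ⟨Sum.inl ⟨k, hk⟩, h⟩
    · exact ⟨Sum.inr (Sum.inl ⟨k, hk⟩), h⟩
    · exact ⟨Sum.inr (Sum.inr ⟨k, hk⟩), h⟩
  -- counting
  let Off := {p : V × V // p.1 ≠ p.2}
  have hne : ∀ i w, φ i w ≠ φ i (nxW s hs0 w) := fun i w => (hG' i w).ne
  let Ψ : I × Wt s × Bool → Off := fun x =>
    if x.2.2 then ⟨(φ x.1 x.2.1, φ x.1 (nxW s hs0 x.2.1)), hne _ _⟩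
    else ⟨(φ x.1 (nxW s hs0 x.2.1), φ x.1 x.2.1), (hne _ _).symm⟩
  have hΨs : Function.Surjective Ψ := by
    rintro ⟨⟨u, v⟩, huv⟩
    obtain ⟨i, hi⟩ := hedge u v huv
    obtain ⟨w, hw⟩ := hcons i u v hi
    rcases hw with ⟨h1, h2⟩ | ⟨h1, h2⟩
    · refine ⟨(i, w, true), ?_⟩
      apply Subtype.ext
      simp [Ψ, h1, h2]
    · refine ⟨(i, w, false), ?_⟩
      apply Subtype.ext
      simp [Ψ, h1, h2]
  have hcardOff : Fintype.card Off = (2 * s + 3) * (2 * s + 2) := by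
    have h1 : Fintype.card Off = ((Finset.univ : Finset V).offDiag).card := by
      rw [Fintype.card_subtype]
      congr 1
      ext p
      simp [Finset.mem_offDiag]
    rw [h1, Finset.offDiag_card, Finset.card_univ, hV]
    have : (2 * s + 3) * (2 * s + 3) = (2 * s + 3) * (2 * s + 2) + (2 * s + 3) := by ring
    omega
  have hΨ : Function.Bijective Ψ := by
    refine (Fintype.bijective_iff_surjective_and_card _).2 ⟨hΨs, ?_⟩
    rw [hcardOff, Fintype.card_prod, Fintype.card_prod, hI, hcardW, Fintype.card_bool]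
    ring
  have huniq : ∀ u v, u ≠ v → ∀ i i', (G i).Adj u v → (G i').Adj u v → i = i' := by
    intro u v huv i i' h h'
    have key : ∀ i, (G i).Adj u v → ∃ x : Wt s × Bool, Ψ (i, x) = ⟨(u, v), huv⟩ := by
      intro i h
      obtain ⟨w, hw⟩ := hG i u v h
      rcases hw with ⟨h1, h2⟩ | ⟨h1, h2⟩
      · refine ⟨(w, true), ?_⟩
        apply Subtype.ext
        simp [Ψ, h1, h2]
      · refine ⟨(w, false), ?_⟩
        apply Subtype.ext
        simp [Ψ, h1, h2]
    obtain ⟨x, hx⟩ := key i h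
    obtain ⟨x', hx'⟩ := key i' h'
    have := hΨ.1 (hx.trans hx'.symm)
    exact congrArg Prod.fst this
  have hex : ∀ u v, u ≠ v → ∃ i, (G i).Adj u v := by
    intro u v huv
    obtain ⟨i, hi⟩ := hedge u v huv
    obtain ⟨w, hw⟩ := hcons i u v hi
    refine ⟨i, ?_⟩
    rcases hw with ⟨h1, h2⟩ | ⟨h1, h2⟩
    · rw [← h1, ← h2]; exact hG' i w
    · rw [← h1, ← h2]; exact (hG' i w).symm
  -- transport
  let e : Fin (2 * s + 3) ≃ V := (Fintype.equivFinOfCardEq hV).symm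
  let f : Fin (s + 1) ≃ I := (Fintype.equivFinOfCardEq hI).symm
  refine ⟨fun j => (G (f j)).comap e, ?_, ?_⟩
  · intro j
    exact ⟨(SimpleGraph.Iso.comap e (G (f j))).trans (SimpleGraph.Iso.map (φ (f j)) C).symm⟩
  · intro u v huv
    have huv' : e u ≠ e v := fun h => huv (e.injective h)
    obtain ⟨i, hi⟩ := hex (e u) (e v) huv'
    refine ⟨f.symm i, ?_, ?_⟩
    · change (G (f (f.symm i))).Adj (e u) (e v)
      rw [f.apply_symm_apply]; exact hi
    · intro j hj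
      have hj' : (G (f j)).Adj (e u) (e v) := hj
      have := huniq _ _ huv' _ _ hj' hi
      rw [← this, f.symm_apply_apply]

/-- The vertices: finitely many copies of `ZMod n` and some fixed points. -/
abbrev VV (κ : Type) (n f : ℕ) : Type := (κ × ZMod n) ⊕ Fin f

/-- translation -/
def sh {κ : Type} {n f : ℕ} (g : ZMod n) : VV κ n f → VV κ n f
  | Sum.inl p => Sum.inl (p.1, g + p.2)
  | Sum.inr c => Sum.inr c

theorem sh_sh {κ : Type} {n f : ℕ} (g : ZMod n) (v : VV κ n f) : sh g (sh (-g) v) = v := by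
  rcases v with ⟨a, x⟩ | c
  · simp [sh]
  · rfl

/-- A solution from a base factor developed over the elements `Γ` of `ZMod n`, together with
fixed factors indexed by `J`. -/
theorem hasSolution_of_base (s : ℕ) (hs : 2 ≤ s) (κ J : Type) [Fintype κ] [Fintype J]
    (n f : ℕ) [NeZero n] (hcard : Fintype.card κ * n + f = 2 * s + 3)
    (Γ : Finset (ZMod n)) (hΓ : Γ.card + Fintype.card J = s + 1)
    (T A B : ℕ → VV κ n f) (T' A' B' : J → ℕ → VV κ n f)
    (hcov : ∀ v, Cov s T A B v) (hcov' : ∀ j v, Cov s (T' j) (A' j) (B' j) v)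
    (hedge : ∀ u v, u ≠ v → (∃ j, Adj3 s (T' j) (A' j) (B' j) u v) ∨
      ∃ g ∈ Γ, Adj3 s T A B (sh (-g) u) (sh (-g) v)) : HasSolution s := by
  classical
  refine hasSolution_of_family s hs (VV κ n f) ({g // g ∈ Γ} ⊕ J) ?_ ?_
    (Sum.elim (fun g k => sh g.1 (T k)) T') (Sum.elim (fun g k => sh g.1 (A k)) A')
    (Sum.elim (fun g k => sh g.1 (B k)) B') ?_ ?_
  · rw [Fintype.card_sum, Fintype.card_prod, ZMod.card, Fintype.card_fin]
    exact hcard
  · rw [Fintype.card_sum, Fintype.card_coe]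
    exact hΓ
  · rintro (g | j) v
    · rcases hcov (sh (-g.1) v) with ⟨k, hk, h⟩ | ⟨k, hk, h⟩ | ⟨k, hk, h⟩
      · exact Or.inl ⟨k, hk, by simp only [Sum.elim_inl]; rw [h, sh_sh]⟩
      · exact Or.inr (Or.inl ⟨k, hk, by simp only [Sum.elim_inl]; rw [h, sh_sh]⟩)
      · exact Or.inr (Or.inr ⟨k, hk, by simp only [Sum.elim_inl]; rw [h, sh_sh]⟩)
    · exact hcov' j v
  · intro u v huv
    rcases hedge u v huv with ⟨j, h⟩ | ⟨g, hg, h⟩
    · exact ⟨Sum.inr j, h⟩
    · refine ⟨Sum.inl ⟨g, hg⟩, ?_⟩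
      have e1 : sh g (sh (-g) u) = u := sh_sh g u
      have e2 : sh g (sh (-g) v) = v := sh_sh g v
      rcases h with h | h | h
      · have := h.map (sh g); rw [e1, e2] at this; exact Or.inl this
      · have := h.map (sh g); rw [e1, e2] at this; exact Or.inr (Or.inl this)
      · have := h.map (sh g); rw [e1, e2] at this; exact Or.inr (Or.inr this)

/-- every residue has a representative in any window of length `n` -/
theorem exists_rep (n : ℕ) [NeZero n] (L : ℤ) (x : ZMod n) :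
    ∃ X : ℤ, L ≤ X ∧ X < L + n ∧ ((X : ℤ) : ZMod n) = x := by
  have hn : (0 : ℤ) < n := by exact_mod_cast Nat.pos_of_ne_zero (NeZero.ne n)
  refine ⟨L + ((x.val : ℤ) - L) % n, ?_, ?_, ?_⟩
  · have := Int.emod_nonneg ((x.val : ℤ) - L) hn.ne'
    omega
  · have := Int.emod_lt_of_pos ((x.val : ℤ) - L) hn
    omega
  · have h1 : (((x.val : ℤ) - L) % n : ℤ) = ((x.val : ℤ) - L) - n * (((x.val : ℤ) - L) / n) :=
      Int.emod_def _ _
    rw [h1]
    push_cast
    rw [ZMod.natCast_self]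
    simp

end Pool.Agent.MP_633541_co
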