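import Mathlib
import Pool.Agent.MP_633541_co.Basic

set_option autoImplicit false

namespace Pool.Agent.MP_633541_co

theorem Cons.rot {V : Type} {c : ℕ → V} {n t : ℕ} {f : V → V}
    (hf : ∀ k < n, f (c k) = c ((k + t) % n)) {u v : V} (H : Cons c n u v) :
    Cons c n (f u) (f v) := by
  obtain ⟨k, hk, H⟩ := H
  have hn : 0 < n := by omega
  have e : c (((k + t) % n + 1) % n) = f (c ((k + 1) % n)) := by
    rw [hf _ (Nat.mod_lt _ hn)]
    congr 1
    rw [Nat.mod_add_mod, Nat.mod_add_mod]
    congr 1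
    ring
  refine ⟨(k + t) % n, Nat.mod_lt _ hn, ?_⟩
  rw [e, ← hf k hk]
  rcases H with ⟨h1, h2⟩ | ⟨h1, h2⟩
  · exact Or.inl ⟨by rw [h1], by rw [h2]⟩
  · exact Or.inr ⟨by rw [h1], by rw [h2]⟩

theorem Cons.flip {V : Type} {c : ℕ → V} {n : ℕ} {f : V → V}
    (hf : ∀ k < n, f (c k) = c ((n - k) % n)) {u v : V} (H : Cons c n u v) :
    Cons c n (f u) (f v) := by
  obtain ⟨k, hk, H⟩ := H
  have hn : 0 < n := by omega
  have hk' : (n - (k + 1) % n) % n < n := Nat.mod_lt _ hn
  have e : c (((n - (k + 1) % n) % n + 1) % n) = f (c k) := by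
    rw [hf k hk]
    congr 1
    rcases Nat.lt_or_ge (k + 1) n with h1 | h1
    · rw [Nat.mod_eq_of_lt h1, Nat.mod_eq_of_lt (by omega : n - (k + 1) < n)]
      congr 1
      omega
    · have : k + 1 = n := by omega
      rw [this, Nat.mod_self, Nat.sub_zero, Nat.mod_self]
      congr 1
      omega
  refine ⟨(n - (k + 1) % n) % n, hk', ?_⟩
  rw [e, ← hf _ (Nat.mod_lt _ hn)]
  rcases H with ⟨h1, h2⟩ | ⟨h1, h2⟩
  · exact Or.inr ⟨by rw [h2], by rw [h1]⟩
  · exact Or.inl ⟨by rw [h2], by rw [h1]⟩

/-- the elements of `ZMod (2 * r)` below `r` -/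
def low (n r : ℕ) [NeZero n] : Finset (ZMod n) := Finset.univ.filter fun g => g.val < r

theorem card_low (n r : ℕ) [NeZero n] (hn : r ≤ n) : (low n r).card = r := by
  have h : (low n r) = (Finset.range r).image (fun k : ℕ => (k : ZMod n)) := by
    ext g
    simp only [low, Finset.mem_filter, Finset.mem_univ, true_and, Finset.mem_image,
      Finset.mem_range]
    constructor
    · intro h
      exact ⟨g.val, h, ZMod.natCast_zmod_val g⟩
    · rintro ⟨k, hk, rfl⟩
      rw [ZMod.val_natCast_of_lt (by omega)]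
      exact hk
  rw [h, Finset.card_image_of_injOn, Finset.card_range]
  intro a ha b hb hab
  have ha' : a < r := by simpa using ha
  have hb' : b < r := by simpa using hb
  have := congrArg ZMod.val hab
  simp only at this
  rwa [ZMod.val_natCast_of_lt (by omega), ZMod.val_natCast_of_lt (by omega)] at this

theorem sh_add {κ : Type} {n f : ℕ} (g g' : ZMod n) (v : VV κ n f) :
    sh g (sh g' v) = sh (g + g') v := by
  rcases v with ⟨a, x⟩ | c
  · simp [sh, add_assoc]
  · rfl

theorem sh_zero {κ : Type} {n f : ℕ} (v : VV κ n f) : sh (0 : ZMod n) v = v := by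
  rcases v with ⟨a, x⟩ | c
  · simp [sh]
  · rfl

/-- If the base adjacency is invariant under translation by `r`, half the translates suffice. -/
theorem low_suffices {κ : Type} {n f r : ℕ} [NeZero n] (hn : n = 2 * r)
    (E : VV κ n f → VV κ n f → Prop)
    (hE : ∀ u v, E u v → E (sh (r : ZMod n) u) (sh (r : ZMod n) v)) (u v : VV κ n f)
    (H : ∃ g : ZMod n, E (sh (-g) u) (sh (-g) v)) :
    ∃ g ∈ low n r, E (sh (-g) u) (sh (-g) v) := by
  obtain ⟨g, hg⟩ := H
  by_cases hlt : g.val < r
  · exact ⟨g, by simp [low, hlt], hg⟩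
  · have hlt' : g.val < n := ZMod.val_lt g
    have hg' : g = ((g.val - r : ℕ) : ZMod n) + r := by
      rw [← Nat.cast_add, Nat.sub_add_cancel (by omega), ZMod.natCast_zmod_val]
    refine ⟨((g.val - r : ℕ) : ZMod n), ?_, ?_⟩
    · simp only [low, Finset.mem_filter, Finset.mem_univ, true_and]
      rw [ZMod.val_natCast_of_lt (by omega)]
      omega
    · have := hE _ _ hg
      rw [sh_add, sh_add] at this
      have e : (r : ZMod n) + -g = -((g.val - r : ℕ) : ZMod n) := by
        linear_combination -hg'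
      rwa [e] at this

theorem two_r {n r : ℕ} (hn : n = 2 * r) : (r : ZMod n) + r = 0 := by
  have : ((2 * r : ℕ) : ZMod n) = 0 := by rw [← hn]; exact ZMod.natCast_self _
  push_cast at this
  linear_combination this

end Pool.Agent.MP_633541_co
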