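import Mathlib
import Pool.Agent.MP_633541_co.Basic
import Pool.Agent.MP_633541_co.Inv

set_option autoImplicit false

namespace Pool.Agent.MP_633541_co

namespace FourCase

variable (j : ℕ)

instance : NeZero (8 * j + 2) := ⟨by omega⟩

abbrev V : Type := VV Unit (8 * j + 2) 1

/-- a vertex -/
def p (z : ℤ) : V j := Sum.inl ((), (z : ZMod (8 * j + 2)))
/-- the fixed vertex -/
def inf : V j := Sum.inr 0

def α (k : ℕ) : ℤ :=
  if k < 2 * j then (if (k : ℤ) % 2 = 0 then 1 + (k : ℤ) / 2 else 2 * j - (k : ℤ) / 2)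
  else (if (k : ℤ) % 2 = 0 then 4 * j - (4 * j - 1 - (k : ℤ)) / 2
    else -2 * j + (4 * j - 1 - (k : ℤ)) / 2)

def T (k : ℕ) : V j :=
  if k = 0 then inf j else if k = 1 then p j 0 else p j (4 * j + 1)

def A (k : ℕ) : V j := p j (α j k)

def B (k : ℕ) : V j := p j (α j k + (4 * j + 1))

theorem p_eq (a b : ℤ) (m : ℤ) (hab : a = b + m * (8 * j + 2)) : p j a = p j b := by
  unfold p
  congr 2
  rw [hab]
  have : ((8 * j + 2 : ℕ) : ZMod (8 * j + 2)) = 0 := ZMod.natCast_self _
  push_cast at this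
  push_cast
  linear_combination (m : ZMod (8 * j + 2)) * this

theorem cov (hj : 1 ≤ j) (v : V j) : Cov (4 * j) (T j) (A j) (B j) v := by
  rcases v with ⟨⟨⟩, x⟩ | c
  · obtain ⟨X, h1, h2, rfl⟩ := exists_rep (8 * j + 2) (-2 * j) x
    push_cast at h2
    change Cov _ _ _ _ (p j X)
    by_cases c1 : X < -j
    · -- A
      refine Or.inr (Or.inl ⟨(4 * j - 1 - 2 * (X + 2 * j)).toNat, by omega, ?_⟩)
      unfold A α
      rw [if_neg (by omega), if_neg (by omega)]
      congr 1
      omega
    by_cases c2 : X < 0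
    · -- B
      refine Or.inr (Or.inr ⟨(4 * j - 1 - (2 * (-1 - X) + 1)).toNat, by omega, ?_⟩)
      unfold B α
      rw [if_neg (by omega), if_pos (by omega)]
      apply p_eq j _ _ 1
      omega
    by_cases c3 : X = 0
    · exact Or.inl ⟨1, by omega, by rw [c3]; rfl⟩
    by_cases c4 : X ≤ j
    · refine Or.inr (Or.inl ⟨(2 * (X - 1)).toNat, by omega, ?_⟩)
      unfold A α
      rw [if_pos (by omega), if_pos (by omega)]
      congr 1
      omega
    by_cases c5 : X ≤ 2 * j
    · refine Or.inr (Or.inl ⟨(2 * (2 * j - X) + 1).toNat, by omega, ?_⟩)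
      unfold A α
      rw [if_pos (by omega), if_neg (by omega)]
      congr 1
      omega
    by_cases c6 : X ≤ 3 * j
    · refine Or.inr (Or.inr ⟨(4 * j - 1 - 2 * (X - 2 * j - 1)).toNat, by omega, ?_⟩)
      unfold B α
      rw [if_neg (by omega), if_neg (by omega)]
      congr 1
      omega
    by_cases c7 : X ≤ 4 * j
    · refine Or.inr (Or.inl ⟨(4 * j - 1 - (2 * (4 * j - X) + 1)).toNat, by omega, ?_⟩)
      unfold A α
      rw [if_neg (by omega), if_pos (by omega)]
      congr 1
      omega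
    by_cases c8 : X = 4 * j + 1
    · exact Or.inl ⟨2, by omega, by rw [c8]; rfl⟩
    by_cases c9 : X ≤ 5 * j + 1
    · refine Or.inr (Or.inr ⟨(2 * (X - (4 * j + 1) - 1)).toNat, by omega, ?_⟩)
      unfold B α
      rw [if_pos (by omega), if_pos (by omega)]
      congr 1
      omega
    · refine Or.inr (Or.inr ⟨(2 * (2 * j - (X - (4 * j + 1))) + 1).toNat, by omega, ?_⟩)
      unfold B α
      rw [if_pos (by omega), if_neg (by omega)]
      congr 1
      omega
  · fin_cases c
    exact Or.inl ⟨0, by omega, rfl⟩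

/-- base adjacency -/
abbrev E (u v : V j) : Prop := Adj3 (4 * j) (T j) (A j) (B j) u v

theorem sh_p (z : ℤ) : sh ((4 * j + 1 : ℕ) : ZMod (8 * j + 2)) (p j z) = p j (z + (4 * j + 1)) := by
  unfold p
  simp only [sh]
  congr 2
  push_cast
  ring

theorem E_inv (hj : 1 ≤ j) (u v : V j) (H : E j u v) :
    E j (sh ((4 * j + 1 : ℕ) : ZMod (8 * j + 2)) u) (sh ((4 * j + 1 : ℕ) : ZMod (8 * j + 2)) v) := by
  rcases H with H | H | H
  · refine Or.inl (H.flip ?_)
    intro k hk
    interval_cases k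
    · rfl
    · change sh _ (p j 0) = p j (4 * j + 1)
      rw [sh_p]; congr 1; ring
    · change sh _ (p j (4 * j + 1)) = p j 0
      rw [sh_p]
      exact p_eq j _ _ 1 (by ring)
  · have := H.map (sh ((4 * j + 1 : ℕ) : ZMod (8 * j + 2)))
    refine Or.inr (Or.inr ?_)
    have e : (fun k => sh ((4 * j + 1 : ℕ) : ZMod (8 * j + 2)) (A j k)) = B j := by
      funext k
      unfold A B
      rw [sh_p]
    rwa [e] at this
  · have := H.map (sh ((4 * j + 1 : ℕ) : ZMod (8 * j + 2)))
    refine Or.inr (Or.inl ?_)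
    have e : (fun k => sh ((4 * j + 1 : ℕ) : ZMod (8 * j + 2)) (B j k)) = A j := by
      funext k
      unfold A B
      rw [sh_p]
      exact p_eq j _ _ 1 (by ring)
    rwa [e] at this

/-- a translate of the base adjacency -/
def R (u v : V j) : Prop := ∃ g : ZMod (8 * j + 2), E j (sh (-g) u) (sh (-g) v)

theorem R.symm' {u v : V j} (H : R j u v) : R j v u := by
  obtain ⟨g, hg⟩ := H
  exact ⟨g, hg.symm⟩

theorem R_of_edge (a a' : ℤ) (x x' : ZMod (8 * j + 2)) (H : E j (p j a) (p j a'))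
    (hd : x' - x = ((a' - a : ℤ) : ZMod (8 * j + 2))) :
    R j (Sum.inl ((), x)) (Sum.inl ((), x')) := by
  refine ⟨x - a, ?_⟩
  have e1 : -(x - a) + x = a := by ring
  have e2 : -(x - a) + x' = a' := by push_cast at hd; linear_combination hd
  simp only [sh]
  rw [e1, e2]
  exact H

theorem R_inf (x : ZMod (8 * j + 2)) : R j (Sum.inr 0) (Sum.inl ((), x)) := by
  refine ⟨x, Or.inl ?_⟩
  have : Cons (T j) 3 (inf j) (p j 0) := Cons.of_succ 0 (by omega) rfl rfl
  have e : sh (-x) (Sum.inl ((), x) : V j) = p j 0 := by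
    simp [sh, p]
  rw [e]
  exact this

/-- every difference occurs -/
theorem diff (hj : 1 ≤ j) (D : ℤ) (h1 : 1 ≤ D) (h2 : D ≤ 4 * j + 1) :
    ∃ a a' : ℤ, E j (p j a) (p j a') ∧ ∃ m : ℤ,
      (a' - a = D + m * (8 * j + 2) ∨ a - a' = D + m * (8 * j + 2)) := by
  by_cases c1 : D ≤ 2 * j - 1
  · obtain ⟨k, hk⟩ : ∃ k : ℕ, (k : ℤ) = 2 * j - 1 - D := ⟨(2 * j - 1 - D).toNat, by omega⟩
    refine ⟨α j k, α j (k + 1), Or.inr (Or.inl (Cons.of_succ k (by omega) rfl rfl)), 0, ?_⟩
    by_cases hpar : (k : ℤ) % 2 = 0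
    · left
      unfold α
      rw [if_pos (by omega), if_neg (by omega), if_pos (by omega), if_pos (by omega)]
      omega
    · right
      unfold α
      rw [if_pos (by omega), if_neg (by omega), if_pos (by omega), if_pos (by omega)]
      omega
  by_cases c2 : D = 2 * j
  · refine ⟨α j (2 * j - 1), α j (2 * j - 1 + 1), Or.inr (Or.inl (Cons.of_succ (2 * j - 1)
      (by omega) rfl rfl)), 0, Or.inl ?_⟩
    unfold α
    rw [if_neg (by omega), if_pos (by omega), if_pos (by omega), if_neg (by omega)]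
    omega
  by_cases c3 : D = 2 * j + 1
  · refine ⟨α j (4 * j - 1), α j 0, Or.inr (Or.inl (Cons.of_last (by omega) rfl rfl)), 0,
      Or.inl ?_⟩
    unfold α
    rw [if_pos (by omega), if_pos (by omega), if_neg (by omega), if_neg (by omega)]
    omega
  by_cases c4 : D = 4 * j + 1
  · refine ⟨0, 4 * j + 1, Or.inl (Cons.of_succ 1 (by omega) rfl rfl), 0, Or.inl ?_⟩
    omega
  · obtain ⟨k, hk⟩ : ∃ k : ℕ, (k : ℤ) = 4 * j - 2 - (D - 2 * j - 2) :=
      ⟨(4 * j - 2 - (D - 2 * j - 2)).toNat, by omega⟩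
    by_cases hpar : (k : ℤ) % 2 = 0
    · refine ⟨α j k, α j (k + 1), Or.inr (Or.inl (Cons.of_succ k (by omega) rfl rfl)), -1, ?_⟩
      left
      unfold α
      rw [if_neg (by omega), if_neg (by omega), if_neg (by omega), if_pos (by omega)]
      omega
    · refine ⟨α j k, α j (k + 1), Or.inr (Or.inl (Cons.of_succ k (by omega) rfl rfl)), -1, ?_⟩
      right
      unfold α
      rw [if_neg (by omega), if_neg (by omega), if_neg (by omega), if_pos (by omega)]
      omega

theorem pure_all (hj : 1 ≤ j) (x : ZMod (8 * j + 2)) (D : ℤ) (h1 : 1 ≤ D) (h2 : D ≤ 4 * j + 1) :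
    R j (Sum.inl ((), x)) (Sum.inl ((), x + (D : ZMod (8 * j + 2)))) := by
  obtain ⟨a, a', hE, m, hm⟩ := diff j hj D h1 h2
  have h0 : ((8 * j + 2 : ℕ) : ZMod (8 * j + 2)) = 0 := ZMod.natCast_self _
  push_cast at h0
  rcases hm with hm | hm
  · refine R_of_edge j a a' _ _ hE ?_
    rw [hm]
    push_cast
    linear_combination (-(m : ZMod (8 * j + 2))) * h0
  · refine R.symm' j (R_of_edge j a a' _ _ hE ?_)
    have : a' - a = -(D + m * (8 * j + 2)) := by omega
    rw [this]
    push_cast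
    linear_combination ((m : ZMod (8 * j + 2))) * h0

theorem hasSolution (hj : 1 ≤ j) : HasSolution (4 * j) := by
  refine hasSolution_of_base (4 * j) (by omega) Unit Empty (8 * j + 2) 1 ?_
    (low (8 * j + 2) (4 * j + 1)) ?_
    (T j) (A j) (B j) (fun e => e.elim) (fun e => e.elim) (fun e => e.elim) (cov j hj)
    (fun e => e.elim) ?_
  · rw [Fintype.card_unit]; ring
  · rw [card_low _ _ (by omega)]; simp
  · intro u v huv
    right
    refine low_suffices (by ring) (E j) (E_inv j hj) u v ?_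
    change R j u v
    rcases u with ⟨⟨⟩, x⟩ | c <;> rcases v with ⟨⟨⟩, x'⟩ | c'
    · have hx : x' ≠ x := fun e => huv (by rw [e])
      obtain ⟨D, h1, h2, hD⟩ := exists_rep (8 * j + 2) (-(4 * j)) (x' - x)
      push_cast at h2
      have hD0 : D ≠ 0 := by
        intro e
        rw [e] at hD
        exact hx (sub_eq_zero.1 (by rw [← hD]; simp))
      by_cases hpos : 0 < D
      · have hx' : x' = x + (D : ZMod (8 * j + 2)) := by rw [hD]; ring
        rw [hx']
        exact pure_all j hj x D (by omega) (by omega)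
      · have hx' : x = x' + ((-D : ℤ) : ZMod (8 * j + 2)) := by
          push_cast
          rw [hD]; ring
        rw [hx']
        exact R.symm' j (pure_all j hj x' (-D) (by omega) (by omega))
    · have : c' = 0 := Subsingleton.elim _ _
      subst this
      exact R.symm' j (R_inf j x)
    · have : c = 0 := Subsingleton.elim _ _
      subst this
      exact R_inf j x'
    · exact absurd (by rw [Subsingleton.elim c c']) huv

end FourCase

end Pool.Agent.MP_633541_co
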