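import Mathlib
import Pool.Agent.MP_633541_co.Basic

set_option autoImplicit false

namespace Pool.Agent.MP_633541_co

namespace OddCase

variable (h : ℕ)

/-- a vertex of the first orbit -/
def p (z : ℤ) : VV Bool (2 * h + 1) 3 := Sum.inl (false, (z : ZMod (2 * h + 1)))
/-- a vertex of the second orbit -/
def q (z : ℤ) : VV Bool (2 * h + 1) 3 := Sum.inl (true, (z : ZMod (2 * h + 1)))
/-- a fixed vertex -/
def inf (c : Fin 3) : VV Bool (2 * h + 1) 3 := Sum.inr c

/-- the zigzag on `0, ..., h - 1` -/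
def ζ (i : ℤ) : ℤ := if i % 2 = 0 then i / 2 else h - 1 - i / 2

def T (k : ℕ) : VV Bool (2 * h + 1) 3 :=
  if k = 0 then inf h 0 else if k = 1 then p h 0 else q h (h + 1)

def A (k : ℕ) : VV Bool (2 * h + 1) 3 :=
  if k = 0 then inf h 1 else if k % 2 = 1 then p h ((k + 1) / 2) else q h (h + 1 - k / 2)

def B (k : ℕ) : VV Bool (2 * h + 1) 3 :=
  if k = 0 then inf h 2 else if k ≤ h then p h (h + 1 + ζ h (h - k)) else q h (-ζ h (k - h - 1))

def T' (_ : Unit) (k : ℕ) : VV Bool (2 * h + 1) 3 :=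
  if k = 0 then inf h 0 else if k = 1 then inf h 1 else inf h 2

def A' (_ : Unit) (k : ℕ) : VV Bool (2 * h + 1) 3 := p h (k * h)

def B' (_ : Unit) (k : ℕ) : VV Bool (2 * h + 1) 3 := q h (k * h)

theorem cov (hh : 1 ≤ h) (v : VV Bool (2 * h + 1) 3) : Cov (2 * h + 1) (T h) (A h) (B h) v := by
  rcases v with ⟨b, x⟩ | c
  · cases b
    · obtain ⟨X, h1, h2, rfl⟩ := exists_rep (2 * h + 1) 0 x
      push_cast at h2
      change Cov _ _ _ _ (p h X)
      by_cases hX0 : X = 0
      · exact Or.inl ⟨1, by omega, by rw [hX0]; rfl⟩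
      by_cases hX1 : X ≤ h
      · refine Or.inr (Or.inl ⟨(2 * X - 1).toNat, by omega, ?_⟩)
        unfold A
        rw [if_neg (by omega), if_pos (by omega)]
        congr 1
        omega
      · refine Or.inr (Or.inr ?_)
        by_cases he : 2 * (X - h - 1) ≤ h - 1
        · refine ⟨(h - 2 * (X - h - 1)).toNat, by omega, ?_⟩
          unfold B
          rw [if_neg (by omega), if_pos (by omega)]
          congr 1
          unfold ζ
          rw [if_pos (by omega)]
          omega
        · refine ⟨(h - (2 * h - 1 - 2 * (X - h - 1))).toNat, by omega, ?_⟩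
          unfold B
          rw [if_neg (by omega), if_pos (by omega)]
          congr 1
          unfold ζ
          rw [if_neg (by omega)]
          omega
    · obtain ⟨X, h1, h2, rfl⟩ := exists_rep (2 * h + 1) (-(h - 1)) x
      push_cast at h2
      change Cov _ _ _ _ (q h X)
      by_cases hX0 : X = h + 1
      · exact Or.inl ⟨2, by omega, by rw [hX0]; rfl⟩
      by_cases hX1 : 1 ≤ X
      · refine Or.inr (Or.inl ⟨(2 * (h + 1 - X)).toNat, by omega, ?_⟩)
        unfold A
        rw [if_neg (by omega), if_neg (by omega)]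
        congr 1
        omega
      · refine Or.inr (Or.inr ?_)
        by_cases he : 2 * (-X) ≤ h - 1
        · refine ⟨(2 * (-X) + h + 1).toNat, by omega, ?_⟩
          unfold B
          rw [if_neg (by omega), if_neg (by omega)]
          congr 1
          unfold ζ
          rw [if_pos (by omega)]
          omega
        · refine ⟨(2 * h - 1 - 2 * (-X) + h + 1).toNat, by omega, ?_⟩
          unfold B
          rw [if_neg (by omega), if_neg (by omega)]
          congr 1
          unfold ζ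
          rw [if_neg (by omega)]
          omega
  · fin_cases c
    · exact Or.inl ⟨0, by omega, rfl⟩
    · exact Or.inr (Or.inl ⟨0, by omega, rfl⟩)
    · exact Or.inr (Or.inr ⟨0, by omega, rfl⟩)

theorem two_h : (2 : ZMod (2 * h + 1)) * h = -1 := by
  have : ((2 * h + 1 : ℕ) : ZMod (2 * h + 1)) = 0 := ZMod.natCast_self _
  push_cast at this
  linear_combination this

/-- the multiple of `h` equal to a given residue -/
theorem mult (x : ZMod (2 * h + 1)) :
    ∃ k < 2 * h + 1, (((k : ℤ) * h : ℤ) : ZMod (2 * h + 1)) = x ∧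
      (((((k + 1) % (2 * h + 1) : ℕ) : ℤ) * h : ℤ) : ZMod (2 * h + 1)) = x + h := by
  have key : (((-2 * x).val : ℕ) : ZMod (2 * h + 1)) = -2 * x := ZMod.natCast_zmod_val _
  have h2 := two_h h
  refine ⟨(-2 * x).val, ZMod.val_lt _, ?_, ?_⟩
  · rw [Int.cast_mul, Int.cast_natCast, key, Int.cast_natCast]
    linear_combination (-x) * h2
  · rw [Int.cast_mul, Int.cast_natCast, ZMod.natCast_mod, Nat.cast_add, key, Int.cast_natCast]
    push_cast
    linear_combination (-x) * h2

theorem cov' (j : Unit) (v : VV Bool (2 * h + 1) 3) :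
    Cov (2 * h + 1) (T' h j) (A' h j) (B' h j) v := by
  rcases v with ⟨b, x⟩ | c
  · obtain ⟨k, hk, h1, -⟩ := mult h x
    cases b
    · exact Or.inr (Or.inl ⟨k, hk, by unfold A' p; rw [h1]⟩)
    · exact Or.inr (Or.inr ⟨k, hk, by unfold B' q; rw [h1]⟩)
  · fin_cases c
    · exact Or.inl ⟨0, by omega, rfl⟩
    · exact Or.inl ⟨1, by omega, rfl⟩
    · exact Or.inl ⟨2, by omega, rfl⟩

/-- base adjacency -/
abbrev E (u v : VV Bool (2 * h + 1) 3) : Prop := Adj3 (2 * h + 1) (T h) (A h) (B h) u v

/-- a translate of the base adjacency -/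
def R (u v : VV Bool (2 * h + 1) 3) : Prop := ∃ g : ZMod (2 * h + 1), E h (sh (-g) u) (sh (-g) v)

theorem R.symm' {u v : VV Bool (2 * h + 1) 3} (H : R h u v) : R h v u := by
  obtain ⟨g, hg⟩ := H
  exact ⟨g, hg.symm⟩

theorem R_of_edge (b b' : Bool) (a a' x x' : ZMod (2 * h + 1))
    (H : E h (Sum.inl (b, a)) (Sum.inl (b', a'))) (hd : x' - x = a' - a) :
    R h (Sum.inl (b, x)) (Sum.inl (b', x')) := by
  refine ⟨x - a, ?_⟩
  have e1 : -(x - a) + x = a := by ring
  have e2 : -(x - a) + x' = a' := by linear_combination hd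
  simp only [sh]
  rw [e1, e2]
  exact H

theorem R_inf (b : Bool) (c : Fin 3) (a x : ZMod (2 * h + 1))
    (H : E h (Sum.inr c) (Sum.inl (b, a))) : R h (Sum.inr c) (Sum.inl (b, x)) := by
  refine ⟨x - a, ?_⟩
  have e1 : -(x - a) + x = a := by ring
  simp only [sh]
  rw [e1]
  exact H

theorem inf_edges (hh : 1 ≤ h) (b : Bool) (c : Fin 3) (x : ZMod (2 * h + 1)) :
    R h (Sum.inr c) (Sum.inl (b, x)) := by
  fin_cases c
  · cases b
    · refine R_inf h _ _ ((0 : ℤ) : ZMod (2 * h + 1)) x (Or.inl ?_)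
      exact Cons.of_succ 0 (by omega) rfl rfl
    · refine R_inf h _ _ (((h : ℤ) + 1 : ℤ) : ZMod (2 * h + 1)) x (Or.inl ?_)
      exact (Cons.of_last (by omega) rfl rfl).symm
  · cases b
    · refine R_inf h _ _ ((((0 : ℕ) + 1 + 1 : ℤ) / 2 : ℤ) : ZMod (2 * h + 1)) x (Or.inr (Or.inl ?_))
      exact Cons.of_succ 0 (by omega) rfl rfl
    · refine R_inf h _ _ ((((h : ℤ) + 1 - ((2 * h : ℕ) : ℤ) / 2 : ℤ)) : ZMod (2 * h + 1)) x
        (Or.inr (Or.inl ?_))
      refine (Cons.of_last (by omega) ?_ rfl).symm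
      unfold A
      rw [if_neg (by omega), if_neg (by omega)]
      rfl
  · cases b
    · refine R_inf h _ _ ((((h : ℤ) + 1 + ζ h (h - ((0 + 1 : ℕ) : ℤ)) : ℤ)) : ZMod (2 * h + 1)) x
        (Or.inr (Or.inr ?_))
      refine Cons.of_succ 0 (by omega) rfl ?_
      unfold B
      rw [if_neg (by omega), if_pos (by omega)]
      rfl
    · refine R_inf h _ _ (((-ζ h (((2 * h : ℕ) : ℤ) - h - 1) : ℤ)) : ZMod (2 * h + 1)) x
        (Or.inr (Or.inr ?_))
      refine (Cons.of_last (by omega) ?_ rfl).symm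
      unfold B
      rw [if_neg (by omega), if_neg (by omega)]
      rfl

/-- pure differences in the first orbit -/
theorem pure_p (D : ℕ) (h1 : 1 ≤ D) (h2 : D ≤ h - 1) (x : ZMod (2 * h + 1)) :
    R h (Sum.inl (false, x)) (Sum.inl (false, x + (D : ℤ))) := by
  have hB1 : B h D = p h (h + 1 + ζ h (h - D)) := by
    unfold B
    rw [if_neg (by omega), if_pos (by omega)]
  have hB2 : B h (D + 1) = p h (h + 1 + ζ h (h - (D + 1 : ℕ))) := by
    unfold B
    rw [if_neg (by omega), if_pos (by omega)]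
  have hE : E h (p h (h + 1 + ζ h (h - D))) (p h (h + 1 + ζ h (h - (D + 1 : ℕ)))) :=
    Or.inr (Or.inr (Cons.of_succ D (by omega) hB1 hB2))
  by_cases hpar : ((h : ℤ) - D) % 2 = 0
  · -- ζ (h - D) = (h - D) / 2, ζ (h - D - 1) = h - 1 - (h - D - 1) / 2
    refine R_of_edge h _ _ _ _ _ _ hE ?_
    rw [add_sub_cancel_left, ← Int.cast_sub]
    congr 1
    unfold ζ
    rw [if_pos hpar, if_neg (by omega)]
    omega
  · refine R.symm' h (R_of_edge h _ _ _ _ _ _ hE ?_)
    rw [show x - (x + ((D : ℤ) : ZMod (2 * h + 1))) = ((-D : ℤ) : ZMod (2 * h + 1)) by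
      push_cast; ring, ← Int.cast_sub]
    congr 1
    unfold ζ
    rw [if_neg hpar, if_pos (by omega)]
    omega

/-- pure differences in the second orbit -/
theorem pure_q (D : ℕ) (h1 : 1 ≤ D) (h2 : D ≤ h - 1) (x : ZMod (2 * h + 1)) :
    R h (Sum.inl (true, x)) (Sum.inl (true, x + (D : ℤ))) := by
  have hB1 : B h (2 * h - D) = q h (-ζ h (h - 1 - D)) := by
    unfold B
    rw [if_neg (by omega), if_neg (by omega)]
    congr 3
    omega
  have hB2 : B h (2 * h - D + 1) = q h (-ζ h (h - D)) := by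
    unfold B
    rw [if_neg (by omega), if_neg (by omega)]
    congr 3
    omega
  have hE : E h (q h (-ζ h (h - 1 - D))) (q h (-ζ h (h - D))) :=
    Or.inr (Or.inr (Cons.of_succ (2 * h - D) (by omega) hB1 hB2))
  by_cases hpar : ((h : ℤ) - D) % 2 = 0
  · refine R_of_edge h _ _ _ _ _ _ hE ?_
    rw [add_sub_cancel_left, ← Int.cast_sub]
    congr 1
    unfold ζ
    rw [if_pos hpar, if_neg (by omega)]
    omega
  · refine R.symm' h (R_of_edge h _ _ _ _ _ _ hE ?_)
    rw [show x - (x + ((D : ℤ) : ZMod (2 * h + 1))) = ((-D : ℤ) : ZMod (2 * h + 1)) by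
      push_cast; ring, ← Int.cast_sub]
    congr 1
    unfold ζ
    rw [if_neg hpar, if_pos (by omega)]
    omega

/-- mixed differences -/
theorem mixed (hh : 1 ≤ h) (x y : ZMod (2 * h + 1)) :
    R h (Sum.inl (false, x)) (Sum.inl (true, y)) := by
  obtain ⟨D, h1, h2, hD⟩ := exists_rep (2 * h + 1) (-h) (y - x)
  push_cast at h2
  by_cases c1 : D = -h
  · have hE : E h (p h 0) (q h (h + 1)) := Or.inl (Cons.of_succ 1 (by omega) rfl rfl)
    refine R_of_edge h _ _ _ _ _ _ hE ?_
    rw [← hD, c1]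
    have := two_h h
    push_cast
    linear_combination -this
  by_cases c2 : D = h
  · have hB1 : B h h = p h (h + 1 + ζ h (h - h)) := by
      unfold B
      rw [if_neg (by omega), if_pos (by omega)]
    have hB2 : B h (h + 1) = q h (-ζ h ((h + 1 : ℕ) - h - 1)) := by
      unfold B
      rw [if_neg (by omega), if_neg (by omega)]
    have hE : E h (p h (h + 1 + ζ h (h - h))) (q h (-ζ h ((h + 1 : ℕ) - h - 1))) :=
      Or.inr (Or.inr (Cons.of_succ h (by omega) hB1 hB2))
    refine R_of_edge h _ _ _ _ _ _ hE ?_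
    rw [← hD, c2, ← Int.cast_sub]
    have e : (-ζ h ((h + 1 : ℕ) - h - 1) - (h + 1 + ζ h (h - h)) : ℤ) = -h - 1 := by
      unfold ζ
      rw [if_pos (by omega), if_pos (by omega)]
      omega
    rw [e]
    have := two_h h
    push_cast
    linear_combination this
  by_cases hpar : ((h : ℤ) - 1 - D) % 2 = 0
  · -- positions 2 i - 1, 2 i with i = (h + 1 - D) / 2
    obtain ⟨i, hi⟩ : ∃ i : ℕ, (h : ℤ) + 1 - D = 2 * i := ⟨(((h : ℤ) + 1 - D) / 2).toNat, by omega⟩
    have hA1 : A h (2 * i - 1) = p h i := by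
      unfold A
      rw [if_neg (by omega), if_pos (by omega)]
      congr 1
      omega
    have hA2 : A h (2 * i - 1 + 1) = q h (h + 1 - i) := by
      unfold A
      rw [if_neg (by omega), if_neg (by omega)]
      congr 1
      omega
    have hE : E h (p h i) (q h (h + 1 - i)) :=
      Or.inr (Or.inl (Cons.of_succ (2 * i - 1) (by omega) hA1 hA2))
    refine R_of_edge h _ _ _ _ _ _ hE ?_
    rw [← hD, ← Int.cast_sub]
    congr 1
    omega
  · obtain ⟨i, hi⟩ : ∃ i : ℕ, (h : ℤ) - D = 2 * i := ⟨(((h : ℤ) - D) / 2).toNat, by omega⟩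
    have hA1 : A h (2 * i) = q h (h + 1 - i) := by
      unfold A
      rw [if_neg (by omega), if_neg (by omega)]
      congr 1
      omega
    have hA2 : A h (2 * i + 1) = p h (i + 1) := by
      unfold A
      rw [if_neg (by omega), if_pos (by omega)]
      congr 1
      omega
    have hE : E h (p h (i + 1)) (q h (h + 1 - i)) :=
      Or.inr (Or.inl (Cons.of_succ (2 * i) (by omega) hA1 hA2).symm)
    refine R_of_edge h _ _ _ _ _ _ hE ?_
    rw [← hD, ← Int.cast_sub]
    congr 1
    omega

/-- pure differences, all of them -/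
theorem pure_all (hh : 1 ≤ h) (b : Bool) (x : ZMod (2 * h + 1)) (D : ℕ) (h1 : 1 ≤ D) (h2 : D ≤ h) :
    (∃ j, Adj3 (2 * h + 1) (T' h j) (A' h j) (B' h j) (Sum.inl (b, x)) (Sum.inl (b, x + (D : ℤ)))) ∨
      R h (Sum.inl (b, x)) (Sum.inl (b, x + (D : ℤ))) := by
  by_cases hD : D ≤ h - 1
  · right
    cases b
    · exact pure_p h D h1 hD x
    · exact pure_q h D h1 hD x
  · left
    obtain rfl : D = h := by omega
    obtain ⟨k, hk, e1, e2⟩ := mult D x
    refine ⟨(), ?_⟩
    cases b
    · refine Or.inr (Or.inl ⟨k, hk, Or.inl ⟨?_, ?_⟩⟩)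
      · unfold A' p; rw [e1]
      · unfold A' p; rw [e2]; simp
    · refine Or.inr (Or.inr ⟨k, hk, Or.inl ⟨?_, ?_⟩⟩)
      · unfold B' q; rw [e1]
      · unfold B' q; rw [e2]; simp

theorem hasSolution (hh : 1 ≤ h) : HasSolution (2 * h + 1) := by
  refine hasSolution_of_base (2 * h + 1) (by omega) Bool Unit (2 * h + 1) 3 ?_ Finset.univ ?_
    (T h) (A h) (B h) (T' h) (A' h) (B' h) (cov h hh) (cov' h) ?_
  · rw [Fintype.card_bool]
  · rw [Finset.card_univ, ZMod.card, Fintype.card_unit]
  · intro u v huv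
    suffices H : (∃ j, Adj3 (2 * h + 1) (T' h j) (A' h j) (B' h j) u v) ∨ R h u v by
      rcases H with H | ⟨g, hg⟩
      · exact Or.inl H
      · exact Or.inr ⟨g, Finset.mem_univ _, hg⟩
    rcases u with ⟨b, x⟩ | c <;> rcases v with ⟨b', x'⟩ | c'
    · by_cases hbb : b = b'
      · subst hbb
        have hx : x' ≠ x := fun e => huv (by rw [e])
        obtain ⟨D, h1, h2, hD⟩ := exists_rep (2 * h + 1) (-h) (x' - x)
        push_cast at h2
        have hD0 : D ≠ 0 := by
          intro e
          rw [e] at hD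
          exact hx (sub_eq_zero.1 (by rw [← hD]; simp))
        by_cases hpos : 0 < D
        · obtain ⟨d, rfl⟩ : ∃ d : ℕ, D = d := ⟨D.toNat, by omega⟩
          have hx' : x' = x + ((d : ℤ) : ZMod (2 * h + 1)) := by rw [hD]; ring
          rw [hx']
          exact pure_all h hh b x d (by omega) (by omega)
        · obtain ⟨d, rfl⟩ : ∃ d : ℕ, D = -d := ⟨(-D).toNat, by omega⟩
          have hx' : x = x' + ((d : ℤ) : ZMod (2 * h + 1)) := by
            have : ((-(d : ℤ) : ℤ) : ZMod (2 * h + 1)) = -((d : ℤ) : ZMod (2 * h + 1)) := by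
              push_cast; ring
            rw [this] at hD
            linear_combination hD
          rw [hx']
          rcases pure_all h hh b x' d (by omega) (by omega) with ⟨j, H⟩ | H
          · exact Or.inl ⟨j, H.symm⟩
          · exact Or.inr (R.symm' h H)
      · right
        cases b <;> cases b'
        · exact absurd rfl hbb
        · exact mixed h hh x x'
        · exact R.symm' h (mixed h hh x' x)
        · exact absurd rfl hbb
    · exact Or.inr (R.symm' h (inf_edges h hh b c' x))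
    · exact Or.inr (inf_edges h hh b' c x')
    · left
      refine ⟨(), Or.inl ?_⟩
      have hc : c ≠ c' := fun e => huv (by rw [e])
      have t01 : Cons (T' h ()) 3 (Sum.inr 0) (Sum.inr 1) := Cons.of_succ 0 (by omega) rfl rfl
      have t12 : Cons (T' h ()) 3 (Sum.inr 1) (Sum.inr 2) := Cons.of_succ 1 (by omega) rfl rfl
      have t20 : Cons (T' h ()) 3 (Sum.inr 2) (Sum.inr 0) := Cons.of_last (by omega) rfl rfl
      fin_cases c <;> fin_cases c'
      · exact absurd rfl hc
      · exact t01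
      · exact t20.symm
      · exact t01.symm
      · exact absurd rfl hc
      · exact t12
      · exact t20
      · exact t12.symm
      · exact absurd rfl hc

end OddCase

end Pool.Agent.MP_633541_co
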