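import Mathlib
import Pool.Agent.MP_633541_co.Basic
import Pool.Agent.MP_633541_co.Inv

set_option autoImplicit false

namespace Pool.Agent.MP_633541_co

namespace SixCase

abbrev V : Type := VV Unit 12 3

def T : ℕ → V
  | 0 => Sum.inr 0
  | 1 => Sum.inl ((), 0)
  | _ => Sum.inl ((), 6)

def A : ℕ → V
  | 0 => Sum.inr 1
  | 1 => Sum.inl ((), 3)
  | 2 => Sum.inl ((), 2)
  | 3 => Sum.inr 2
  | 4 => Sum.inl ((), 8)
  | _ => Sum.inl ((), 9)

def B : ℕ → V
  | 0 => Sum.inl ((), 1)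
  | 1 => Sum.inl ((), 4)
  | 2 => Sum.inl ((), 11)
  | 3 => Sum.inl ((), 7)
  | 4 => Sum.inl ((), 10)
  | _ => Sum.inl ((), 5)

def T' : Unit → ℕ → V
  | _, 0 => Sum.inr 0
  | _, 1 => Sum.inr 1
  | _, _ => Sum.inr 2

def A' : Unit → ℕ → V
  | _, 0 => Sum.inl ((), 0)
  | _, 1 => Sum.inl ((), 2)
  | _, 2 => Sum.inl ((), 4)
  | _, 3 => Sum.inl ((), 6)
  | _, 4 => Sum.inl ((), 8)
  | _, _ => Sum.inl ((), 10)

def B' : Unit → ℕ → V
  | _, 0 => Sum.inl ((), 1)
  | _, 1 => Sum.inl ((), 3)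
  | _, 2 => Sum.inl ((), 5)
  | _, 3 => Sum.inl ((), 7)
  | _, 4 => Sum.inl ((), 9)
  | _, _ => Sum.inl ((), 11)

instance (c : ℕ → V) (n : ℕ) (u v : V) : Decidable (Cons c n u v) := by
  unfold Cons; infer_instance

instance (s : ℕ) (T A B : ℕ → V) (v : V) : Decidable (Cov s T A B v) := by
  unfold Cov; infer_instance

instance (s : ℕ) (T A B : ℕ → V) (u v : V) : Decidable (Adj3 s T A B u v) := by
  unfold Adj3; infer_instance

instance : NeZero 12 := ⟨by norm_num⟩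

def gs : List (ZMod 12) := [0, 1, 2, 3, 4, 5]

theorem gs_mem : ∀ g ∈ gs, g ∈ low 12 6 := by
  intro g hg
  simp only [low, Finset.mem_filter, Finset.mem_univ, true_and]
  revert g
  decide

theorem cov : ∀ v, Cov 6 T A B v := by decide +kernel
theorem cov' : ∀ j v, Cov 6 (T' j) (A' j) (B' j) v := by decide +kernel

theorem edges : ∀ u v, u ≠ v → (∃ j, Adj3 6 (T' j) (A' j) (B' j) u v) ∨
    ∃ g ∈ gs, Adj3 6 T A B (sh (-g) u) (sh (-g) v) := by decide +kernel

theorem hasSolution : HasSolution 6 := by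
  refine hasSolution_of_base 6 (by omega) Unit Unit 12 3 ?_ (low 12 6) ?_ T A B T' A' B' cov cov' ?_
  · rw [Fintype.card_unit]
  · rw [card_low _ _ (by omega)]; simp
  · intro u v huv
    rcases edges u v huv with H | ⟨g, hg, H⟩
    · exact Or.inl H
    · exact Or.inr ⟨g, gs_mem g hg, H⟩

end SixCase

end Pool.Agent.MP_633541_co
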