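import Mathlib
import Pool.Agent.MP_633541_co.Basic
import Pool.Agent.MP_633541_co.Inv

set_option autoImplicit false

namespace Pool.Agent.MP_633541_co

namespace TwoCase

variable (h : ℕ)

instance : NeZero (8 * h + 4) := ⟨by omega⟩

abbrev V : Type := VV Unit (8 * h + 4) 3

/-- a vertex -/
def p (z : ℤ) : V h := Sum.inl ((), (z : ZMod (8 * h + 4)))
/-- a fixed vertex -/
def inf (c : Fin 3) : V h := Sum.inr c

theorem p_eq (a b : ℤ) (m : ℤ) (hab : a = b + m * (8 * h + 4)) : p h a = p h b := by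
  unfold p
  congr 2
  rw [hab]
  have : ((8 * h + 4 : ℕ) : ZMod (8 * h + 4)) = 0 := ZMod.natCast_self _
  push_cast at this
  push_cast
  linear_combination (m : ZMod (8 * h + 4)) * this

def y (t : ℤ) : ℤ := if t % 2 = 0 then 2 * h - t / 2 else t / 2

def a (i : ℕ) : ℤ :=
  (if i < h ∨ ((i : ℤ) + h) % 2 = 1 then y h i else y h (i + 2)) + 1 +
    (if i = 0 ∧ (h : ℤ) % 2 = 1 then (4 * h + 2 : ℤ) else 0)

def Y (t : ℤ) : ℤ := if t % 2 = 0 then 4 * h + 2 - t / 2 else -2 * h + t / 2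

def b (k : ℕ) : ℤ :=
  if k = 0 then y h h + 1 else if k ≤ h then Y h (h + 1 - k) else Y h (3 * h + 1 - k)

def T (k : ℕ) : V h :=
  if k = 0 then inf h 0 else if k = 1 then p h 0 else p h (4 * h + 2)

def A (k : ℕ) : V h :=
  if k = 0 then inf h 1 else if k ≤ 2 * h then p h (a h (k - 1)) else
    if k = 2 * h + 1 then inf h 2 else p h (a h (4 * h + 1 - k) + (4 * h + 2))

def B (k : ℕ) : V h :=
  if k ≤ 2 * h then p h (b h k) else p h (b h (k - (2 * h + 1)) + (4 * h + 2))

/-- the difference of the fixed factor -/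
def δ : ℤ := if (h : ℤ) % 2 = 0 then (2 * h + 2 : ℤ) else 2 * h

def T' (_ : Unit) (k : ℕ) : V h :=
  if k = 0 then inf h 0 else if k = 1 then inf h 1 else inf h 2

def A' (_ : Unit) (k : ℕ) : V h := p h (k * δ h)

def B' (_ : Unit) (k : ℕ) : V h := p h (1 + k * δ h)

theorem sh_p (z : ℤ) : sh ((4 * h + 2 : ℕ) : ZMod (8 * h + 4)) (p h z) = p h (z + (4 * h + 2)) := by
  unfold p
  simp only [sh]
  congr 2
  push_cast
  ring

theorem T_inv (k : ℕ) (hk : k < 3) :
    sh ((4 * h + 2 : ℕ) : ZMod (8 * h + 4)) (T h k) = T h ((3 - k) % 3) := by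
  interval_cases k
  · rfl
  · change sh _ (p h 0) = p h (4 * h + 2)
    rw [sh_p]; congr 1; ring
  · change sh _ (p h (4 * h + 2)) = p h 0
    rw [sh_p]
    exact p_eq h _ _ 1 (by ring)

theorem A_inv (k : ℕ) (hk : k < 4 * h + 2) :
    sh ((4 * h + 2 : ℕ) : ZMod (8 * h + 4)) (A h k) = A h ((4 * h + 2 - k) % (4 * h + 2)) := by
  by_cases h0 : k = 0
  · rw [h0, Nat.sub_zero, Nat.mod_self]
    rfl
  rw [Nat.mod_eq_of_lt (by omega)]
  by_cases h1 : k ≤ 2 * h
  · have e1 : A h k = p h (a h (k - 1)) := by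
      unfold A
      rw [if_neg h0, if_pos h1]
    have e2 : A h (4 * h + 2 - k) = p h (a h (k - 1) + (4 * h + 2)) := by
      unfold A
      rw [if_neg (by omega), if_neg (by omega), if_neg (by omega)]
      congr 3
      omega
    rw [e1, e2, sh_p]
  by_cases h2 : k = 2 * h + 1
  · have e : 4 * h + 2 - k = k := by omega
    rw [e]
    have e1 : A h k = inf h 2 := by
      unfold A
      rw [if_neg h0, if_neg h1, if_pos h2]
    rw [e1]
    rfl
  · have e1 : A h k = p h (a h (4 * h + 1 - k) + (4 * h + 2)) := by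
      unfold A
      rw [if_neg h0, if_neg h1, if_neg h2]
    have e2 : A h (4 * h + 2 - k) = p h (a h (4 * h + 1 - k)) := by
      unfold A
      rw [if_neg (by omega), if_pos (by omega)]
      congr 2
      omega
    rw [e1, e2, sh_p]
    exact p_eq h _ _ 1 (by ring)

theorem B_inv (k : ℕ) (hk : k < 4 * h + 2) :
    sh ((4 * h + 2 : ℕ) : ZMod (8 * h + 4)) (B h k) = B h ((k + (2 * h + 1)) % (4 * h + 2)) := by
  by_cases h1 : k ≤ 2 * h
  · rw [Nat.mod_eq_of_lt (by omega)]
    have e1 : B h k = p h (b h k) := by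
      unfold B
      rw [if_pos h1]
    have e2 : B h (k + (2 * h + 1)) = p h (b h k + (4 * h + 2)) := by
      unfold B
      rw [if_neg (by omega)]
      congr 3
      omega
    rw [e1, e2, sh_p]
  · have e : (k + (2 * h + 1)) % (4 * h + 2) = k - (2 * h + 1) := by
      rw [show k + (2 * h + 1) = (k - (2 * h + 1)) + (4 * h + 2) by omega, Nat.add_mod_right,
        Nat.mod_eq_of_lt (by omega)]
    rw [e]
    have e1 : B h k = p h (b h (k - (2 * h + 1)) + (4 * h + 2)) := by
      unfold B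
      rw [if_neg h1]
    have e2 : B h (k - (2 * h + 1)) = p h (b h (k - (2 * h + 1))) := by
      unfold B
      rw [if_pos (by omega)]
    rw [e1, e2, sh_p]
    exact p_eq h _ _ 1 (by ring)

/-- base adjacency -/
abbrev E (u v : V h) : Prop := Adj3 (4 * h + 2) (T h) (A h) (B h) u v

theorem E_inv (u v : V h) (H : E h u v) :
    E h (sh ((4 * h + 2 : ℕ) : ZMod (8 * h + 4)) u) (sh ((4 * h + 2 : ℕ) : ZMod (8 * h + 4)) v) := by
  rcases H with H | H | H
  · exact Or.inl (H.flip (T_inv h))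
  · exact Or.inr (Or.inl (H.flip (A_inv h)))
  · exact Or.inr (Or.inr (H.rot (B_inv h)))

theorem Cov_inv (v : V h) (H : Cov (4 * h + 2) (T h) (A h) (B h) v) :
    Cov (4 * h + 2) (T h) (A h) (B h) (sh ((4 * h + 2 : ℕ) : ZMod (8 * h + 4)) v) := by
  rcases H with ⟨k, hk, rfl⟩ | ⟨k, hk, rfl⟩ | ⟨k, hk, rfl⟩
  · exact Or.inl ⟨_, Nat.mod_lt _ (by omega), (T_inv h k hk).symm⟩
  · exact Or.inr (Or.inl ⟨_, Nat.mod_lt _ (by omega), (A_inv h k hk).symm⟩)
  · exact Or.inr (Or.inr ⟨_, Nat.mod_lt _ (by omega), (B_inv h k hk).symm⟩)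

theorem Cov_up (z : ℤ) (H : Cov (4 * h + 2) (T h) (A h) (B h) (p h z)) :
    Cov (4 * h + 2) (T h) (A h) (B h) (p h (z + (4 * h + 2))) := by
  rw [← sh_p]; exact Cov_inv h _ H

theorem Cov_down (z : ℤ) (H : Cov (4 * h + 2) (T h) (A h) (B h) (p h (z + (4 * h + 2)))) :
    Cov (4 * h + 2) (T h) (A h) (B h) (p h z) := by
  have := Cov_up h _ H
  rwa [p_eq h (z + (4 * h + 2) + (4 * h + 2)) z 1 (by ring)] at this

theorem cov_A (i : ℕ) (hi : i < 2 * h) : Cov (4 * h + 2) (T h) (A h) (B h) (p h (a h i)) := by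
  refine Or.inr (Or.inl ⟨i + 1, by omega, ?_⟩)
  unfold A
  rw [if_neg (by omega), if_pos (by omega)]
  rfl

theorem cov_A' (i : ℕ) (hi : i < 2 * h) (L : ℤ)
    (hL : (if i < h ∨ ((i : ℤ) + h) % 2 = 1 then y h i else y h (i + 2)) + 1 = L) :
    Cov (4 * h + 2) (T h) (A h) (B h) (p h L) := by
  have H := cov_A h i hi
  unfold a at H
  rw [hL] at H
  by_cases hc : i = 0 ∧ (h : ℤ) % 2 = 1
  · rw [if_pos hc] at H
    exact Cov_down h _ H
  · rw [if_neg hc, add_zero] at H
    exact H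

theorem cov_Y (t : ℕ) (h1 : 1 ≤ t) (h2 : t ≤ 2 * h) :
    Cov (4 * h + 2) (T h) (A h) (B h) (p h (Y h t)) := by
  by_cases ht : t ≤ h
  · refine Or.inr (Or.inr ⟨h + 1 - t, by omega, ?_⟩)
    unfold B b
    rw [if_pos (by omega), if_neg (by omega), if_pos (by omega)]
    congr 2
    omega
  · refine Or.inr (Or.inr ⟨3 * h + 1 - t, by omega, ?_⟩)
    unfold B b
    rw [if_pos (by omega), if_neg (by omega), if_neg (by omega)]
    congr 2
    omega

theorem cov_low (hh : 2 ≤ h) (L : ℤ) (h1 : 0 ≤ L) (h2 : L < 4 * h + 2) :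
    Cov (4 * h + 2) (T h) (A h) (B h) (p h L) := by
  by_cases c0 : L = 0
  · exact Or.inl ⟨1, by omega, by rw [c0]; rfl⟩
  by_cases c1 : L = y h h + 1
  · refine Or.inr (Or.inr ⟨0, by omega, ?_⟩)
    rw [c1]
    unfold B b
    rw [if_pos (by omega), if_pos rfl]
  by_cases c2 : L ≤ 2 * h + 1
  · rcases Int.emod_two_eq_zero_or_one h with hpar | hpar
    · -- h even
      unfold y at c1
      rw [if_pos hpar] at c1
      by_cases d1 : L ≤ h
      · obtain ⟨i, hi⟩ : ∃ i : ℕ, (i : ℤ) = 2 * L - 1 := ⟨(2 * L - 1).toNat, by omega⟩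
        refine cov_A' h i (by omega) L ?_
        rw [if_pos (by omega)]
        unfold y
        rw [if_neg (by omega)]
        omega
      by_cases d2 : L < 2 * h - h / 2 + 1
      · obtain ⟨i, hi⟩ : ∃ i : ℕ, (i : ℤ) = 2 * (2 * h - L) := ⟨(2 * (2 * h - L)).toNat, by omega⟩
        refine cov_A' h i (by omega) L ?_
        rw [if_neg (by omega)]
        unfold y
        rw [if_pos (by omega)]
        omega
      · obtain ⟨i, hi⟩ : ∃ i : ℕ, (i : ℤ) = 2 * (2 * h + 1 - L) :=
          ⟨(2 * (2 * h + 1 - L)).toNat, by omega⟩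
        refine cov_A' h i (by omega) L ?_
        rw [if_pos (by omega)]
        unfold y
        rw [if_pos (by omega)]
        omega
    · -- h odd
      unfold y at c1
      rw [if_neg (by omega)] at c1
      by_cases d1 : L < h / 2 + 1
      · obtain ⟨i, hi⟩ : ∃ i : ℕ, (i : ℤ) = 2 * L - 1 := ⟨(2 * L - 1).toNat, by omega⟩
        refine cov_A' h i (by omega) L ?_
        rw [if_pos (by omega)]
        unfold y
        rw [if_neg (by omega)]
        omega
      by_cases d2 : L ≤ h + 1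
      · obtain ⟨i, hi⟩ : ∃ i : ℕ, (i : ℤ) = 2 * L - 3 := ⟨(2 * L - 3).toNat, by omega⟩
        refine cov_A' h i (by omega) L ?_
        rw [if_neg (by omega)]
        unfold y
        rw [if_neg (by omega)]
        omega
      · obtain ⟨i, hi⟩ : ∃ i : ℕ, (i : ℤ) = 2 * (2 * h + 1 - L) :=
          ⟨(2 * (2 * h + 1 - L)).toNat, by omega⟩
        refine cov_A' h i (by omega) L ?_
        rw [if_pos (by omega)]
        unfold y
        rw [if_pos (by omega)]
        omega
  · by_cases c3 : L ≤ 3 * h + 1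
    · obtain ⟨t, ht⟩ : ∃ t : ℕ, (t : ℤ) = 2 * (L - 2 * h - 2) + 1 :=
        ⟨(2 * (L - 2 * h - 2) + 1).toNat, by omega⟩
      have H := cov_Y h t (by omega) (by omega)
      apply Cov_down
      rwa [p_eq h (Y h t) (L + (4 * h + 2)) (-1) (by
        unfold Y
        rw [if_neg (by omega)]
        omega)] at H
    · obtain ⟨t, ht⟩ : ∃ t : ℕ, (t : ℤ) = 2 * (4 * h + 2 - L) :=
        ⟨(2 * (4 * h + 2 - L)).toNat, by omega⟩
      have H := cov_Y h t (by omega) (by omega)
      rwa [p_eq h (Y h t) L 0 (by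
        unfold Y
        rw [if_pos (by omega)]
        omega)] at H

theorem cov (hh : 2 ≤ h) (v : V h) : Cov (4 * h + 2) (T h) (A h) (B h) v := by
  rcases v with ⟨⟨⟩, x⟩ | c
  · obtain ⟨X, h1, h2, rfl⟩ := exists_rep (8 * h + 4) 0 x
    push_cast at h2
    change Cov _ _ _ _ (p h X)
    by_cases c1 : X < 4 * h + 2
    · exact cov_low h hh X h1 c1
    · have := Cov_up h _ (cov_low h hh (X - (4 * h + 2)) (by omega) (by omega))
      rwa [sub_add_cancel] at this
  · fin_cases c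
    · exact Or.inl ⟨0, by omega, rfl⟩
    · exact Or.inr (Or.inl ⟨0, by omega, rfl⟩)
    · refine Or.inr (Or.inl ⟨2 * h + 1, by omega, ?_⟩)
      unfold A
      rw [if_neg (by omega), if_neg (by omega), if_pos rfl]
      rfl

theorem A_edge (i : ℕ) (hi : i + 1 < 2 * h) : E h (p h (a h i)) (p h (a h (i + 1))) := by
  refine Or.inr (Or.inl (Cons.of_succ (i + 1) (by omega) ?_ ?_))
  · unfold A
    rw [if_neg (by omega), if_pos (by omega)]
    rfl
  · unfold A
    rw [if_neg (by omega), if_pos (by omega)]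
    rfl

theorem B_edge (k : ℕ) (hk : k + 1 ≤ 2 * h) : E h (p h (b h k)) (p h (b h (k + 1))) := by
  refine Or.inr (Or.inr (Cons.of_succ k (by omega) ?_ ?_))
  · unfold B
    rw [if_pos (by omega)]
  · unfold B
    rw [if_pos (by omega)]

/-- every difference except `δ` occurs -/
theorem diff (hh : 2 ≤ h) (D : ℤ) (h1 : 1 ≤ D) (h2 : D ≤ 4 * h + 2) (hδ : D ≠ δ h) :
    ∃ c c' : ℤ, E h (p h c) (p h c') ∧ ∃ m : ℤ,
      (c' - c = D + m * (8 * h + 4) ∨ c - c' = D + m * (8 * h + 4)) := by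
  have hδ' : D ≠ if (h : ℤ) % 2 = 0 then (2 * h + 2 : ℤ) else 2 * h := hδ
  by_cases c1 : D ≤ h
  · obtain ⟨i, hi⟩ : ∃ i : ℕ, (i : ℤ) = 2 * h - 1 - D := ⟨(2 * h - 1 - D).toNat, by omega⟩
    refine ⟨_, _, A_edge h i (by omega), 0, ?_⟩
    unfold a y
    split_ifs <;> first | omega | (exfalso; tauto)
  by_cases c2 : D = h + 1
  · rcases Int.emod_two_eq_zero_or_one h with hpar | hpar
    · refine ⟨b h (2 * h), b h 0 + (4 * h + 2),
        Or.inr (Or.inr (Cons.of_succ (2 * h) (by omega) ?_ ?_)), -1, Or.inr ?_⟩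
      · unfold B
        rw [if_pos (by omega)]
      · unfold B
        rw [if_neg (by omega)]
        congr 3
        omega
      · unfold b
        rw [if_pos rfl, if_neg (by omega), if_neg (by omega)]
        unfold Y y
        rw [if_neg (by omega), if_pos (by omega)]
        omega
    · refine ⟨b h (2 * h), b h 0 + (4 * h + 2),
        Or.inr (Or.inr (Cons.of_succ (2 * h) (by omega) ?_ ?_)), 0, Or.inl ?_⟩
      · unfold B
        rw [if_pos (by omega)]
      · unfold B
        rw [if_neg (by omega)]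
        congr 3
        omega
      · unfold b
        rw [if_pos rfl, if_neg (by omega), if_neg (by omega)]
        unfold Y y
        rw [if_neg (by omega), if_pos (by omega)]
        omega
  by_cases c3 : D ≤ 2 * h
  · obtain ⟨i, hi⟩ : ∃ i : ℕ, (i : ℤ) = 2 * h - D := ⟨(2 * h - D).toNat, by omega⟩
    refine ⟨_, _, A_edge h i (by omega), 0, ?_⟩
    unfold a y
    split_ifs at hδ' ⊢ <;> first | omega | (exfalso; tauto)
  by_cases c4 : D = 2 * h + 1
  · refine ⟨_, _, B_edge h 0 (by omega), 0, ?_⟩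
    unfold b
    rw [if_pos rfl, if_neg (by omega), if_pos (by omega)]
    unfold Y y
    split_ifs <;> omega
  by_cases c5 : D = 2 * h + 2
  · refine ⟨_, _, A_edge h 0 (by omega), -1, Or.inl ?_⟩
    unfold a y
    split_ifs at hδ' ⊢ <;> first | omega | (exfalso; tauto)
  by_cases c6 : D = 3 * h + 2
  · refine ⟨_, _, B_edge h h (by omega), -1, Or.inr ?_⟩
    unfold b
    rw [if_neg (by omega), if_pos (by omega), if_neg (by omega), if_neg (by omega)]
    unfold Y
    split_ifs <;> omega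
  by_cases c7 : D = 4 * h + 2
  · exact ⟨0, 4 * h + 2, Or.inl (Cons.of_succ 1 (by omega) rfl rfl), 0, Or.inl (by omega)⟩
  by_cases c8 : D < 3 * h + 2
  · obtain ⟨k, hk⟩ : ∃ k : ℕ, (k : ℤ) = h - (D - 2 * h - 2) := ⟨(h - (D - 2 * h - 2)).toNat, by omega⟩
    refine ⟨_, _, B_edge h k (by omega), -1, ?_⟩
    unfold b
    rw [if_neg (by omega), if_pos (by omega), if_neg (by omega), if_pos (by omega)]
    unfold Y
    split_ifs <;> omega
  · obtain ⟨k, hk⟩ : ∃ k : ℕ, (k : ℤ) = 3 * h - (D - 2 * h - 2) :=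
      ⟨(3 * h - (D - 2 * h - 2)).toNat, by omega⟩
    refine ⟨_, _, B_edge h k (by omega), -1, ?_⟩
    unfold b
    rw [if_neg (by omega), if_neg (by omega), if_neg (by omega), if_neg (by omega)]
    unfold Y
    split_ifs <;> omega

/-- a translate of the base adjacency -/
def R (u v : V h) : Prop := ∃ g : ZMod (8 * h + 4), E h (sh (-g) u) (sh (-g) v)

theorem R.symm' {u v : V h} (H : R h u v) : R h v u := by
  obtain ⟨g, hg⟩ := H
  exact ⟨g, hg.symm⟩

theorem R_of_edge (c c' : ℤ) (x x' : ZMod (8 * h + 4)) (H : E h (p h c) (p h c'))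
    (hd : x' - x = ((c' - c : ℤ) : ZMod (8 * h + 4))) :
    R h (Sum.inl ((), x)) (Sum.inl ((), x')) := by
  refine ⟨x - c, ?_⟩
  have e1 : -(x - c) + x = c := by ring
  have e2 : -(x - c) + x' = c' := by push_cast at hd; linear_combination hd
  simp only [sh]
  rw [e1, e2]
  exact H

theorem R_inf (hh : 1 ≤ h) (c : Fin 3) (x : ZMod (8 * h + 4)) :
    R h (Sum.inr c) (Sum.inl ((), x)) := by
  have key : ∀ z : ℤ, E h (Sum.inr c) (p h z) → R h (Sum.inr c) (Sum.inl ((), x)) := by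
    intro z hz
    refine ⟨x - z, ?_⟩
    have e1 : -(x - z) + x = z := by ring
    simp only [sh]
    rw [e1]
    exact hz
  fin_cases c
  · exact key 0 (Or.inl (Cons.of_succ 0 (by omega) rfl rfl))
  · refine key (a h 0) (Or.inr (Or.inl (Cons.of_succ 0 (by omega) rfl ?_)))
    unfold A
    rw [if_neg (by omega), if_pos (by omega)]
  · refine key (a h (2 * h - 1)) (Or.inr (Or.inl (Cons.of_succ (2 * h) (by omega) ?_ ?_).symm))
    · unfold A
      rw [if_neg (by omega), if_pos (by omega)]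
    · unfold A
      rw [if_neg (by omega), if_neg (by omega), if_pos rfl]
      rfl

/-- the multiple of `δ` equal to a given even residue -/
theorem mult (hh : 1 ≤ h) (X : ℤ) (hX : X % 2 = 0) :
    ∃ k < 4 * h + 2, p h (k * δ h) = p h X ∧
      p h (((k + 1) % (4 * h + 2) : ℕ) * δ h) = p h (X + δ h) := by
  obtain ⟨Z, rfl⟩ : ∃ Z : ℤ, X = 2 * Z := ⟨X / 2, by omega⟩
  obtain ⟨u, c, e, hu, huc⟩ : ∃ u c e : ℤ, δ h = 2 * u ∧ u * c = 1 + (4 * h + 2) * e := by
    rcases Int.emod_two_eq_zero_or_one h with hpar | hpar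
    · obtain ⟨r, hr⟩ : ∃ r : ℤ, (h : ℤ) = 2 * r := ⟨h / 2, by omega⟩
      refine ⟨h + 1, 2 * h + 3, r + 1, ?_, ?_⟩
      · unfold δ; rw [if_pos hpar]; ring
      · rw [hr]; ring
    · obtain ⟨r, hr⟩ : ∃ r : ℤ, (h : ℤ) = 2 * r + 1 := ⟨h / 2, by omega⟩
      refine ⟨h, 2 * h - 1, r, ?_, ?_⟩
      · unfold δ; rw [if_neg (by omega)]
      · rw [hr]; ring
  have hs : (0 : ℤ) < 4 * h + 2 := by omega
  obtain ⟨k, hk⟩ : ∃ k : ℕ, (k : ℤ) = (c * Z) % (4 * h + 2) :=
    ⟨((c * Z) % (4 * h + 2)).toNat, Int.toNat_of_nonneg (Int.emod_nonneg _ hs.ne')⟩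
  have hklt : (k : ℤ) < 4 * h + 2 := by
    rw [hk]; exact Int.emod_lt_of_pos _ hs
  have hkeq : (k : ℤ) = c * Z - (4 * h + 2) * ((c * Z) / (4 * h + 2)) := by
    rw [hk]; exact Int.emod_def _ _
  set d := (c * Z) / (4 * h + 2) with hd
  refine ⟨k, by omega, ?_, ?_⟩
  · refine p_eq h _ _ (Z * e - u * d) ?_
    rw [hkeq, hu]
    linear_combination (2 * Z) * huc
  · by_cases hk1 : k + 1 < 4 * h + 2
    · rw [Nat.mod_eq_of_lt hk1]
      refine p_eq h _ _ (Z * e - u * d) ?_
      push_cast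
      rw [hkeq, hu]
      linear_combination (2 * Z) * huc
    · have hk2 : k + 1 = 4 * h + 2 := by omega
      rw [hk2, Nat.mod_self]
      have hk3 : (k : ℤ) = 4 * h + 1 := by omega
      refine p_eq h _ _ (Z * e - u * d - u) ?_
      have e1 : c * Z - (4 * h + 2) * d = 4 * h + 1 := by rw [← hkeq, hk3]
      rw [hu]
      push_cast
      linear_combination (2 * Z) * huc - 2 * u * e1

theorem cov' (hh : 1 ≤ h) (j : Unit) (v : V h) : Cov (4 * h + 2) (T' h j) (A' h j) (B' h j) v := by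
  rcases v with ⟨⟨⟩, x⟩ | c
  · obtain ⟨X, -, -, rfl⟩ := exists_rep (8 * h + 4) 0 x
    change Cov _ _ _ _ (p h X)
    rcases Int.emod_two_eq_zero_or_one X with hpar | hpar
    · obtain ⟨k, hk, e1, -⟩ := mult h hh X hpar
      exact Or.inr (Or.inl ⟨k, hk, e1⟩)
    · obtain ⟨k, hk, e1, -⟩ := mult h hh (X - 1) (by omega)
      refine Or.inr (Or.inr ⟨k, hk, ?_⟩)
      unfold B' p
      unfold p at e1
      congr 2
      have e2 : (((k * δ h : ℤ)) : ZMod (8 * h + 4)) = ((X - 1 : ℤ) : ZMod (8 * h + 4)) := by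
        have := Sum.inl.inj e1
        exact congrArg Prod.snd this
      rw [Int.cast_add, e2]
      push_cast
      ring
  · fin_cases c
    · exact Or.inl ⟨0, by omega, rfl⟩
    · exact Or.inl ⟨1, by omega, rfl⟩
    · exact Or.inl ⟨2, by omega, rfl⟩

theorem fixed_edge (hh : 1 ≤ h) (X : ℤ) :
    Adj3 (4 * h + 2) (T' h ()) (A' h ()) (B' h ()) (p h X) (p h (X + δ h)) := by
  rcases Int.emod_two_eq_zero_or_one X with hpar | hpar
  · obtain ⟨k, hk, e1, e2⟩ := mult h hh X hpar
    exact Or.inr (Or.inl ⟨k, hk, Or.inl ⟨e1, e2⟩⟩)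
  · obtain ⟨k, hk, e1, e2⟩ := mult h hh (X - 1) (by omega)
    have f1 : (((k * δ h : ℤ)) : ZMod (8 * h + 4)) = ((X - 1 : ℤ) : ZMod (8 * h + 4)) :=
      congrArg Prod.snd (Sum.inl.inj e1)
    have f2 : (((((k + 1) % (4 * h + 2) : ℕ) * δ h : ℤ)) : ZMod (8 * h + 4)) =
        ((X - 1 + δ h : ℤ) : ZMod (8 * h + 4)) := congrArg Prod.snd (Sum.inl.inj e2)
    refine Or.inr (Or.inr ⟨k, hk, Or.inl ⟨?_, ?_⟩⟩)
    · unfold B' p
      congr 2
      rw [Int.cast_add, f1]
      push_cast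
      ring
    · unfold B' p
      congr 2
      rw [Int.cast_add, f2]
      push_cast
      ring

theorem pure_all (hh : 2 ≤ h) (X : ℤ) (D : ℤ) (h1 : 1 ≤ D) (h2 : D ≤ 4 * h + 2) :
    (∃ j, Adj3 (4 * h + 2) (T' h j) (A' h j) (B' h j) (p h X) (p h (X + D))) ∨
      R h (p h X) (p h (X + D)) := by
  by_cases hδ : D = δ h
  · left
    rw [hδ]
    exact ⟨(), fixed_edge h (by omega) X⟩
  · right
    obtain ⟨c, c', hE, m, hm⟩ := diff h hh D h1 h2 hδ
    have h0 : ((8 * h + 4 : ℕ) : ZMod (8 * h + 4)) = 0 := ZMod.natCast_self _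
    push_cast at h0
    rcases hm with hm | hm
    · refine R_of_edge h c c' _ _ hE ?_
      rw [hm]
      push_cast
      linear_combination (-(m : ZMod (8 * h + 4))) * h0
    · refine R.symm' h (R_of_edge h c c' _ _ hE ?_)
      have : c' - c = -(D + m * (8 * h + 4)) := by omega
      rw [this]
      push_cast
      linear_combination ((m : ZMod (8 * h + 4))) * h0

theorem hasSolution (hh : 2 ≤ h) : HasSolution (4 * h + 2) := by
  refine hasSolution_of_base (4 * h + 2) (by omega) Unit Unit (8 * h + 4) 3 ?_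
    (low (8 * h + 4) (4 * h + 2)) ?_
    (T h) (A h) (B h) (T' h) (A' h) (B' h) (cov h hh) (cov' h (by omega)) ?_
  · rw [Fintype.card_unit]; ring
  · rw [card_low _ _ (by omega)]; simp
  · intro u v huv
    suffices H : (∃ j, Adj3 (4 * h + 2) (T' h j) (A' h j) (B' h j) u v) ∨ R h u v by
      rcases H with H | H
      · exact Or.inl H
      · exact Or.inr (low_suffices (by ring) (E h) (E_inv h) u v H)
    rcases u with ⟨⟨⟩, x⟩ | c <;> rcases v with ⟨⟨⟩, x'⟩ | c'
    · have hx : x' ≠ x := fun e => huv (by rw [e])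
      obtain ⟨D, h1, h2, hD⟩ := exists_rep (8 * h + 4) (-(4 * h + 1)) (x' - x)
      push_cast at h2
      have hD0 : D ≠ 0 := by
        intro e
        rw [e] at hD
        exact hx (sub_eq_zero.1 (by rw [← hD]; simp))
      by_cases hpos : 0 < D
      · obtain ⟨X, -, -, rfl⟩ := exists_rep (8 * h + 4) 0 x
        have hx' : x' = ((X + D : ℤ) : ZMod (8 * h + 4)) := by push_cast; rw [hD]; ring
        rw [hx']
        exact pure_all h hh X D (by omega) (by omega)
      · obtain ⟨X, -, -, rfl⟩ := exists_rep (8 * h + 4) 0 x'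
        have hx' : x = ((X + (-D) : ℤ) : ZMod (8 * h + 4)) := by
          push_cast
          rw [hD]; ring
        rw [hx']
        rcases pure_all h hh X (-D) (by omega) (by omega) with ⟨j, H⟩ | H
        · exact Or.inl ⟨j, H.symm⟩
        · exact Or.inr (R.symm' h H)
    · exact Or.inr (R.symm' h (R_inf h (by omega) c' x))
    · exact Or.inr (R_inf h (by omega) c x')
    · left
      refine ⟨(), Or.inl ?_⟩
      have hc : c ≠ c' := fun e => huv (by rw [e])
      have t01 : Cons (T' h ()) 3 (Sum.inr 0) (Sum.inr 1) := Cons.of_succ 0 (by omega) rfl rfl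
      have t12 : Cons (T' h ()) 3 (Sum.inr 1) (Sum.inr 2) := Cons.of_succ 1 (by omega) rfl rfl
      have t20 : Cons (T' h ()) 3 (Sum.inr 2) (Sum.inr 0) := Cons.of_last (by omega) rfl rfl
      fin_cases c <;> fin_cases c'
      · exact absurd rfl hc
      · exact t01
      · exact t20.symm
      · exact t01.symm
      · exact absurd rfl hc
      · exact t12
      · exact t20
      · exact t12.symm
      · exact absurd rfl hc

end TwoCase

end Pool.Agent.MP_633541_co
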